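import Mathlib

/-! Inverse function theorem for a smooth map from a (not necessarily Hausdorff) manifold
to a finite dimensional normed space (module A for MP_7f87b1_gt). -/

namespace Helper94.MIFT

open scoped Manifold ContDiff Topology
open Set Function

abbrev Eu (k : ℕ) := EuclideanSpace ℝ (Fin k)

theorem exists_localInverse {m : ℕ} {G : Type*} [TopologicalSpace G] [ChartedSpace (Eu m) G]
    [IsManifold 𝓘(ℝ, Eu m) ∞ G] {E : Type*} [NormedAddCommGroup E] [NormedSpace ℝ E]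
    [FiniteDimensional ℝ E] {Φ : G → E} {O : Set G} (hO : IsOpen O) {g₀ : G} (hg : g₀ ∈ O)
    (hΦ : ContMDiffOn 𝓘(ℝ, Eu m) 𝓘(ℝ, E) ∞ Φ O)
    (hb : Function.Bijective (mfderiv 𝓘(ℝ, Eu m) 𝓘(ℝ, E) Φ g₀)) :
    ∃ (W : Set G) (W2 : Set E) (Ξ : E → G), IsOpen W ∧ g₀ ∈ W ∧ W ⊆ O ∧ IsOpen W2 ∧
      ContMDiffOn 𝓘(ℝ, E) 𝓘(ℝ, Eu m) ∞ Ξ W2 ∧ MapsTo Φ W W2 ∧ MapsTo Ξ W2 W ∧
      (∀ g ∈ W, Ξ (Φ g) = g) ∧ (∀ v ∈ W2, Φ (Ξ v) = v) := by
  classical
  set χ := extChartAt 𝓘(ℝ, Eu m) g₀ with hχ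
  set F : Eu m → E := Φ ∘ χ.symm with hF
  set U : Set (Eu m) := χ.target ∩ χ.symm ⁻¹' O with hU
  have hUo : IsOpen U := by
    have := (continuousOn_extChartAt_symm (I := 𝓘(ℝ, Eu m)) g₀).isOpen_inter_preimage
      (isOpen_extChartAt_target (I := 𝓘(ℝ, Eu m)) g₀) hO
    exact this
  have hx₀ : χ g₀ ∈ U := by
    refine ⟨mem_extChartAt_target g₀, ?_⟩
    simp only [mem_preimage]
    rw [hχ, extChartAt_to_inv]
    exact hg
  -- smoothness of `F` on `U`
  have hFU : ContDiffOn ℝ ∞ F U := by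
    rw [← contMDiffOn_iff_contDiffOn]
    refine hΦ.comp ((contMDiffOn_extChartAt_symm g₀).mono inter_subset_left) ?_
    intro x hx
    exact hx.2
  have hFat : ∀ x ∈ U, ContDiffAt ℝ ∞ F x := fun x hx => hFU.contDiffAt (hUo.mem_nhds hx)
  -- the derivative
  have hMD : MDifferentiableAt 𝓘(ℝ, Eu m) 𝓘(ℝ, E) Φ g₀ :=
    ((hΦ.contMDiffAt (hO.mem_nhds hg)).mdifferentiableAt (by simp))
  have hder : mfderiv 𝓘(ℝ, Eu m) 𝓘(ℝ, E) Φ g₀ = fderiv ℝ F (χ g₀) := by
    rw [hMD.mfderiv]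
    simp only [writtenInExtChartAt, extChartAt_model_space_eq_id, PartialEquiv.refl_coe,
      Function.id_comp, modelWithCornersSelf_coe, range_id, fderivWithin_univ]
    rfl
  rw [hder] at hb
  have hinv : (fderiv ℝ F (χ g₀)).IsInvertible := by
    let e := LinearEquiv.ofBijective (fderiv ℝ F (χ g₀)).toLinearMap hb
    exact ⟨e.toContinuousLinearEquiv, by ext x; rfl⟩
  -- openness of the invertibility
  have hfc : ContinuousOn (fderiv ℝ F) U :=
    hFU.continuousOn_fderiv_of_isOpen hUo (by simp)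
  set U' : Set (Eu m) := U ∩ (fderiv ℝ F) ⁻¹' (range ((↑) : (Eu m ≃L[ℝ] E) → (Eu m →L[ℝ] E)))
    with hU'
  have hU'o : IsOpen U' := hfc.isOpen_inter_preimage hUo (ContinuousLinearEquiv.isOpen)
  have hx₀' : χ g₀ ∈ U' := ⟨hx₀, hinv⟩
  obtain ⟨e₀, he₀⟩ := hinv
  have hfd : HasFDerivAt F (e₀ : Eu m →L[ℝ] E) (χ g₀) := by
    rw [he₀]
    exact ((hFat _ hx₀).differentiableAt (by simp)).hasFDerivAt
  let h := (hFat _ hx₀).toOpenPartialHomeomorph F hfd (by simp)
  have hh : (h : Eu m → E) = F := ContDiffAt.toOpenPartialHomeomorph_coe _ _ _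
  have hhs : χ g₀ ∈ h.source := ContDiffAt.mem_toOpenPartialHomeomorph_source _ _ _
  let k := h.restrOpen U' hU'o
  have hks : k.source = h.source ∩ U' := OpenPartialHomeomorph.restrOpen_source _ _ _
  have hk : (k : Eu m → E) = F := hh
  have hksym : ContDiffOn ℝ ∞ k.symm k.target := by
    intro y hy
    have hxs : k.symm y ∈ k.source := k.map_target hy
    have hxU' : k.symm y ∈ U' := by
      rw [hks] at hxs; exact hxs.2
    obtain ⟨e, he⟩ := hxU'.2
    refine (k.contDiffAt_symm hy (f₀' := e) ?_ ?_).contDiffWithinAt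
    · rw [hk, he]
      exact ((hFat _ hxU'.1).differentiableAt (by simp)).hasFDerivAt
    · rw [hk]; exact hFat _ hxU'.1
  refine ⟨χ.source ∩ χ ⁻¹' k.source, k.target, χ.symm ∘ k.symm, ?_, ?_, ?_, k.open_target,
    ?_, ?_, ?_, ?_, ?_⟩
  · exact (continuousOn_extChartAt (I := 𝓘(ℝ, Eu m)) g₀).isOpen_inter_preimage
      (isOpen_extChartAt_source (I := 𝓘(ℝ, Eu m)) g₀) k.open_source
  · refine ⟨mem_extChartAt_source g₀, ?_⟩
    simp only [mem_preimage, hks]
    exact ⟨hhs, hx₀'⟩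
  · rintro g ⟨hg1, hg2⟩
    simp only [mem_preimage, hks] at hg2
    have := hg2.2.1.2
    simp only [mem_preimage] at this
    rwa [χ.left_inv hg1] at this
  · have h1 : ContMDiffOn 𝓘(ℝ, E) 𝓘(ℝ, Eu m) ∞ k.symm k.target :=
      contMDiffOn_iff_contDiffOn.2 hksym
    refine (contMDiffOn_extChartAt_symm (I := 𝓘(ℝ, Eu m)) (n := ∞) g₀).comp h1 ?_
    intro y hy
    have hxs : k.symm y ∈ k.source := k.map_target hy
    rw [hks] at hxs
    exact hxs.2.1.1
  · rintro g ⟨hg1, hg2⟩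
    have := k.map_source hg2
    rw [hk] at this
    simp only [hF, Function.comp_apply] at this
    rwa [χ.left_inv hg1] at this
  · intro y hy
    have hxs : k.symm y ∈ k.source := k.map_target hy
    have hxs' := hxs
    rw [hks] at hxs'
    have hxt : k.symm y ∈ χ.target := hxs'.2.1.1
    refine ⟨χ.map_target hxt, ?_⟩
    simp only [mem_preimage, Function.comp_apply]
    rw [χ.right_inv hxt]
    exact hxs
  · rintro g ⟨hg1, hg2⟩
    have h1 : Φ g = k (χ g) := by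
      rw [hk]
      simp only [hF, Function.comp_apply]
      rw [χ.left_inv hg1]
    simp only [Function.comp_apply]
    rw [h1, k.left_inv hg2, χ.left_inv hg1]
  · intro y hy
    have : Φ ((χ.symm ∘ k.symm) y) = k (k.symm y) := by
      rw [hk]; rfl
    rw [this, k.right_inv hy]

end Helper94.MIFT
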